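import Mathlib

set_option autoImplicit false

namespace Pool.Agent.Results.MP_195d7c_lc.ThreeLetters

/-- The equality set `E(h, g) = {w ∈ S* | h(w) = g(w)}` of two morphisms of free monoids. -/
def equalitySet {S D : Type} (h g : FreeMonoid S →* FreeMonoid D) : Language S :=
  {w | h (FreeMonoid.ofList w) = g (FreeMonoid.ofList w)}

/-! ### Morphisms given by the images of the letters -/

/-- The image of the word `w` under the morphism with letter images `f a`. -/
def ext {S D : Type} (f : S → List D) (w : List S) : List D := (w.map f).flatten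

/-- The morphism of free monoids with letter images `f a`. -/
def mor {S D : Type} (f : S → List D) : FreeMonoid S →* FreeMonoid D :=
  FreeMonoid.lift (fun a => FreeMonoid.ofList (f a))

theorem mor_ofList {S D : Type} (f : S → List D) (w : List S) :
    mor f (FreeMonoid.ofList w) = FreeMonoid.ofList (ext f w) := by
  induction w with
  | nil => rfl
  | cons a w ih =>
    rw [show FreeMonoid.ofList (a :: w) = FreeMonoid.of a * FreeMonoid.ofList w from rfl,
      map_mul, ih, mor, FreeMonoid.lift_eval_of]
    simp [ext]

theorem ext_append {S D : Type} (f : S → List D) (u v : List S) :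
    ext f (u ++ v) = ext f u ++ ext f v := by
  simp [ext]

/-- Soundness of the Sardinas-Patterson test. -/
theorem code_of_residuals {α : Type} (X R : Set (List α)) (hX : ∀ x ∈ X, x ≠ [])
    (hR : ∀ d ∈ R, d ≠ [])
    (h1 : ∀ x ∈ X, ∀ e, e ≠ [] → x ++ e ∈ X → e ∈ R)
    (h2 : ∀ d ∈ R, ∀ e, d ++ e ∈ X → e ∈ R)
    (h3 : ∀ x ∈ X, ∀ e, x ++ e ∈ R → e ∈ R) :
    ∀ c c' : List (List α), (∀ x ∈ c, x ∈ X) → (∀ x ∈ c', x ∈ X) →
      c.flatten = c'.flatten → c = c' := by
  have core : ∀ n : ℕ, ∀ d ∈ R, ∀ c c' : List (List α), (∀ x ∈ c, x ∈ X) → (∀ x ∈ c', x ∈ X) →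
      (d ++ c.flatten).length ≤ n → d ++ c.flatten = c'.flatten → False := by
    intro n
    induction n with
    | zero =>
      intro d hd c c' _ _ hl _
      have : d.length = 0 := by
        have := hl
        simp only [List.length_append] at this
        omega
      exact hR d hd (List.length_eq_zero_iff.1 this)
    | succ n ih =>
      intro d hd c c' hc hc' hl he
      have hdpos : 0 < d.length := List.length_pos_iff.2 (hR d hd)
      cases c' with
      | nil =>
        simp only [List.flatten_nil, List.append_eq_nil_iff] at he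
        exact hR d hd he.1
      | cons y ys =>
        have hy : y ∈ X := hc' y (by simp)
        have hys : ∀ x ∈ ys, x ∈ X := fun x hx => hc' x (by simp [hx])
        have hypos : 0 < y.length := List.length_pos_iff.2 (hX y hy)
        simp only [List.flatten_cons] at he
        rcases List.append_eq_append_iff.1 he with ⟨e, he1, he2⟩ | ⟨e, he1, he2⟩
        · have heD : e ∈ R := h2 d hd e (he1 ▸ hy)
          refine ih e heD ys c hys hc ?_ he2.symm
          rw [he2] at hl
          simp only [List.length_append] at hl ⊢
          omega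
        · have heD : e ∈ R := h3 y hy e (he1 ▸ hd)
          refine ih e heD c ys hc hys ?_ he2.symm
          rw [he1] at hl
          simp only [List.length_append] at hl ⊢
          omega
  intro c
  induction c with
  | nil =>
    intro c' _ hc' he
    cases c' with
    | nil => rfl
    | cons y ys =>
      simp only [List.flatten_nil, List.flatten_cons] at he
      have := (List.append_eq_nil_iff.1 he.symm).1
      exact absurd this (hX y (hc' y (by simp)))
  | cons x xs ih =>
    intro c' hc hc' he
    have hx : x ∈ X := hc x (by simp)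
    have hxs : ∀ z ∈ xs, z ∈ X := fun z hz => hc z (by simp [hz])
    cases c' with
    | nil =>
      simp only [List.flatten_nil, List.flatten_cons] at he
      have := (List.append_eq_nil_iff.1 he).1
      exact absurd this (hX x hx)
    | cons y ys =>
      have hy : y ∈ X := hc' y (by simp)
      have hys : ∀ z ∈ ys, z ∈ X := fun z hz => hc' z (by simp [hz])
      simp only [List.flatten_cons] at he
      rcases List.append_eq_append_iff.1 he with ⟨e, he1, he2⟩ | ⟨e, he1, he2⟩
      · by_cases h : e = []
        · subst h
          simp only [List.append_nil] at he1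
          subst he1
          simp only [List.nil_append] at he2
          rw [ih ys hxs hys he2]
        · exact (core _ e (h1 x hx e h (he1 ▸ hy)) ys xs hys hxs le_rfl he2.symm).elim
      · by_cases h : e = []
        · subst h
          simp only [List.append_nil] at he1
          subst he1
          simp only [List.nil_append] at he2
          rw [ih ys hxs hys he2.symm]
        · exact (core _ e (h1 y hy e h (he1 ▸ hx)) xs ys hxs hys le_rfl he2.symm).elim

/-- Injectivity of a morphism whose letter images are distinct and pass the test. -/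
theorem mor_injective {S D : Type} (f : S → List D) (hf : Function.Injective f)
    (X R : Set (List D)) (hfX : ∀ a, f a ∈ X) (hX : ∀ x ∈ X, x ≠ []) (hR : ∀ d ∈ R, d ≠ [])
    (h1 : ∀ x ∈ X, ∀ e, e ≠ [] → x ++ e ∈ X → e ∈ R)
    (h2 : ∀ d ∈ R, ∀ e, d ++ e ∈ X → e ∈ R)
    (h3 : ∀ x ∈ X, ∀ e, x ++ e ∈ R → e ∈ R) :
    Function.Injective (mor f) := by
  have hcode := code_of_residuals X R hX hR h1 h2 h3
  intro u v huv
  have h1 : mor f (FreeMonoid.ofList u.toList) = mor f (FreeMonoid.ofList v.toList) := huv
  rw [mor_ofList, mor_ofList] at h1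
  have h2 : ext f u.toList = ext f v.toList := FreeMonoid.ofList.injective h1
  have h3 := hcode (u.toList.map f) (v.toList.map f) (by
    intro x hx
    obtain ⟨a, -, rfl⟩ := List.mem_map.1 hx
    exact hfX a) (by
    intro x hx
    obtain ⟨a, -, rfl⟩ := List.mem_map.1 hx
    exact hfX a) h2
  exact FreeMonoid.toList.injective (List.map_injective_iff.2 hf h3)

/-- Pigeonhole: an equality set with useful overflows of unbounded length is not regular. -/
theorem not_isRegular_of_overflow {S D : Type} (h g : S → List D)
    (H : ∀ n : ℕ, ∃ u z : List S, ext h (u ++ z) = ext g (u ++ z) ∧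
      (ext h u).length = (ext g u).length + 4 * n) :
    ¬ (equalitySet (mor h) (mor g)).IsRegular := by
  rintro ⟨σ, hσ, M, hM⟩
  have hE : ∀ w : List S, w ∈ M.accepts ↔ ext h w = ext g w := by
    intro w
    rw [hM]
    change mor h (FreeMonoid.ofList w) = mor g (FreeMonoid.ofList w) ↔ _
    rw [mor_ofList, mor_ofList]
    exact FreeMonoid.ofList.injective.eq_iff
  choose u z hz hu using H
  obtain ⟨n, m, hnm, he⟩ := Finite.exists_ne_map_eq_of_infinite (fun n => M.eval (u n))
  have h1 : u n ++ z n ∈ M.accepts := (hE _).2 (hz n)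
  have h2 : u m ++ z n ∈ M.accepts := by
    rw [DFA.mem_accepts, DFA.eval, DFA.evalFrom_of_append] at h1 ⊢
    have : M.evalFrom M.start (u n) = M.evalFrom M.start (u m) := he
    rw [← this]
    exact h1
  have h3 : ext h (u m ++ z n) = ext g (u m ++ z n) := (hE _).1 h2
  have e1 := congrArg List.length (hz n)
  have e2 := congrArg List.length h3
  rw [ext_append, ext_append, List.length_append, List.length_append] at e1 e2
  have a1 := hu n
  have a2 := hu m
  omega

/-! ### The words `(ab)^k` and `(ba)^k` -/

/-- The word `(ab)^k`. -/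
def P {D : Type} (a b : D) : ℕ → List D
  | 0 => []
  | k + 1 => a :: b :: P a b k

theorem P_append {D : Type} (a b : D) (k : ℕ) (l : List D) :
    P a b k ++ a :: b :: l = a :: b :: (P a b k ++ l) := by
  induction k with
  | zero => rfl
  | succ k ih => simp [P, ih]

theorem P_swap {D : Type} (a b : D) (k : ℕ) (l : List D) :
    P a b k ++ a :: l = a :: (P b a k ++ l) := by
  induction k with
  | zero => rfl
  | succ k ih => simp [P, ih]

theorem P_length {D : Type} (a b : D) (k : ℕ) : (P a b k).length = 2 * k := by
  induction k with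
  | zero => rfl
  | succ k ih => simp [P, ih]; ring

/-! ### The example, on any three letters `A`, `B`, `C` -/

section family

variable {S D : Type} {h g : S → List D} {a b : D} {A B C : S}

theorem ext_h_rep (hB : h B = [a, b, a, b]) (k : ℕ) :
    ext h (List.replicate k B) = P a b (2 * k) := by
  induction k with
  | zero => rfl
  | succ k ih =>
    have : ext h (List.replicate (k + 1) B) = h B ++ ext h (List.replicate k B) := by
      simp [ext, List.replicate_succ]
    rw [this, ih, hB, show 2 * (k + 1) = 2 * k + 1 + 1 by ring]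
    rfl

theorem ext_g_rep (gB : g B = [b, a, b, a]) (k : ℕ) :
    ext g (List.replicate k B) = P b a (2 * k) := ext_h_rep gB k

/-- The growth phase `∏ i = 1, ..., n, A B ^ i`: overflow `(ab) ^ (2 n)`. -/
theorem grow (hA : h A = [a, b, a, b, a, b, a]) (hB : h B = [a, b, a, b])
    (gA : g A = [a, b, a]) (gB : g B = [b, a, b, a]) (n : ℕ) :
    ∃ u, ext h u = ext g u ++ P a b (2 * n) := by
  induction n with
  | zero => exact ⟨[], rfl⟩
  | succ n ih =>
    obtain ⟨u, hu⟩ := ih
    refine ⟨u ++ ([A] ++ List.replicate (n + 1) B), ?_⟩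
    have e1 : ext h [A] = h A := by simp [ext]
    have e2 : ext g [A] = g A := by simp [ext]
    simp only [ext_append, ext_h_rep hB, ext_g_rep gB, hu, e1, e2, hA, gA,
      show 2 * (n + 1) = 2 * n + 1 + 1 by ring]
    simp [P, P_swap]

/-- The shrinking phase `∏ i = n, ..., 1, C B ^ (i - 1)`. -/
theorem shrink (hB : h B = [a, b, a, b]) (hC : h C = [a])
    (gB : g B = [b, a, b, a]) (gC : g C = [a, b, a, b, a]) (n : ℕ) :
    ∃ z, P a b (2 * n) ++ ext h z = ext g z := by
  induction n with
  | zero => exact ⟨[], rfl⟩
  | succ n ih =>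
    obtain ⟨z, hz⟩ := ih
    refine ⟨[C] ++ (List.replicate n B ++ z), ?_⟩
    have e1 : ext h [C] = h C := by simp [ext]
    have e2 : ext g [C] = g C := by simp [ext]
    simp only [ext_append, ext_h_rep hB, ext_g_rep gB, ← hz, e1, e2, hC, gC,
      show 2 * (n + 1) = 2 * n + 1 + 1 by ring]
    simp [P, P_swap]

theorem family (hA : h A = [a, b, a, b, a, b, a]) (hB : h B = [a, b, a, b]) (hC : h C = [a])
    (gA : g A = [a, b, a]) (gB : g B = [b, a, b, a]) (gC : g C = [a, b, a, b, a]) (n : ℕ) :
    ∃ u z : List S, ext h (u ++ z) = ext g (u ++ z) ∧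
      (ext h u).length = (ext g u).length + 4 * n := by
  obtain ⟨u, hu⟩ := grow hA hB gA gB n
  obtain ⟨z, hz⟩ := shrink hB hC gB gC n
  refine ⟨u, z, ?_, ?_⟩
  · rw [ext_append, ext_append, hu, List.append_assoc, hz]
  · rw [hu, List.length_append, P_length]
    ring

end family

/-! ### The two morphisms on an alphabet `S` containing three distinct letters `A`, `B`, `C`.
The target alphabet is `Bool ⊕ S`, with `a = inl false`, `b = inl true`; letters of `S` other than
`A`, `B`, `C` are mapped to themselves by both morphisms. -/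

section example_

variable {S : Type} [DecidableEq S]

/-- The letter `a`. -/
abbrev a (S : Type) : Bool ⊕ S := Sum.inl false

/-- The letter `b`. -/
abbrev b (S : Type) : Bool ⊕ S := Sum.inl true

/-- `A ↦ abababa`, `B ↦ abab`, `C ↦ a`, and `s ↦ s` for every other letter. -/
def hh (A B C : S) (s : S) : List (Bool ⊕ S) :=
  if s = A then [a S, b S, a S, b S, a S, b S, a S]
  else if s = B then [a S, b S, a S, b S]
  else if s = C then [a S]
  else [Sum.inr s]

/-- `A ↦ aba`, `B ↦ baba`, `C ↦ ababa`, and `s ↦ s` for every other letter. -/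
def gg (A B C : S) (s : S) : List (Bool ⊕ S) :=
  if s = A then [a S, b S, a S]
  else if s = B then [b S, a S, b S, a S]
  else if s = C then [a S, b S, a S, b S, a S]
  else [Sum.inr s]

theorem hh_injective (A B C : S) : Function.Injective (mor (hh A B C)) := by
  apply mor_injective (hh A B C) ?_
    {w | w = [a S, b S, a S, b S, a S, b S, a S] ∨ w = [a S, b S, a S, b S] ∨ w = [a S] ∨
      ∃ s : S, w = [Sum.inr s]}
    {w | w = [b S, a S, b S] ∨ w = [b S, a S, b S, a S, b S, a S] ∨ w = [a S, b S, a S] ∨
      w = [b S, a S] ∨ w = [b S] ∨ w = [b S, a S, b S, a S]}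
  · intro s
    unfold hh
    split_ifs <;> simp
  · rintro x (rfl | rfl | rfl | ⟨s, rfl⟩) <;> simp
  · rintro x (rfl | rfl | rfl | rfl | rfl | rfl) <;> simp
  · rintro x (rfl | rfl | rfl | ⟨s, rfl⟩) e he <;>
      rintro (h | h | h | ⟨t, h⟩) <;> simp_all
  · rintro x (rfl | rfl | rfl | rfl | rfl | rfl) e <;>
      rintro (h | h | h | ⟨t, h⟩) <;> simp_all
  · rintro x (rfl | rfl | rfl | ⟨s, rfl⟩) e <;>
      rintro (h | h | h | h | h | h) <;> simp_all
  · intro s t h
    unfold hh at h
    split_ifs at h <;> simp_all

theorem gg_injective (A B C : S) : Function.Injective (mor (gg A B C)) := by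
  apply mor_injective (gg A B C) ?_
    {w | w = [a S, b S, a S] ∨ w = [b S, a S, b S, a S] ∨ w = [a S, b S, a S, b S, a S] ∨
      ∃ s : S, w = [Sum.inr s]}
    {w | w = [b S, a S]}
  · intro s
    unfold gg
    split_ifs <;> simp
  · rintro x (rfl | rfl | rfl | ⟨s, rfl⟩) <;> simp
  · rintro x rfl
    simp
  · rintro x (rfl | rfl | rfl | ⟨s, rfl⟩) e he <;>
      rintro (h | h | h | ⟨t, h⟩) <;> simp_all
  · rintro x rfl e
    rintro (h | h | h | ⟨t, h⟩) <;> simp_all
  · rintro x (rfl | rfl | rfl | ⟨s, rfl⟩) e h <;> simp_all
  · intro s t h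
    unfold gg at h
    split_ifs at h <;> simp_all

end example_

/-- **Main theorem.** On no finite alphabet `S` with at least three letters (in particular neither
for three nor for four letters) is the equality set of two injective morphisms always regular. -/
theorem result : ∀ (S : Type) [Fintype S], 3 ≤ Fintype.card S →
    ¬ ∀ (D : Type) [Fintype D] (h g : FreeMonoid S →* FreeMonoid D),
      Function.Injective h → Function.Injective g → (equalitySet h g).IsRegular := by
  classical
  intro S _ hS hall
  obtain ⟨A, B, C, hAB, hAC, hBC⟩ := Fintype.two_lt_card_iff.1 hS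
  refine not_isRegular_of_overflow (hh A B C) (gg A B C) ?_
    (hall (Bool ⊕ S) (mor (hh A B C)) (mor (gg A B C)) (hh_injective A B C) (gg_injective A B C))
  refine family (A := A) (B := B) (C := C) (a := a S) (b := b S) ?_ ?_ ?_ ?_ ?_ ?_
  · simp [hh]
  · simp [hh, hAB.symm]
  · simp [hh, hAC.symm, hBC.symm]
  · simp [gg]
  · simp [gg, hAB.symm]
  · simp [gg, hAC.symm, hBC.symm]

end Pool.Agent.Results.MP_195d7c_lc.ThreeLetters
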